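import Pool.Agent.W557.NC.Defs

set_option autoImplicit false

/-! NC-6: selection of incoming elements. -/

namespace Pool.Agent.W583.NC

open Pool.Agent.W557.NC

theorem mu_small (k : ℕ) : mu k ≤ 1 / 1000 := (mu_le k).trans (by norm_num)

/-- `mu b ≤ mu a / 1000` for `a < b` -/
theorem mu_ratio {a b : ℕ} (h : a < b) : mu b ≤ mu a / 1000 := by
  have h1 := mu_lt h
  have h0 := mu_pos a
  have hs := mu_small a
  have h2 : mu a ^ 10 ≤ mu a * (1 / 1000) := by
    have : mu a ^ 9 ≤ (1 / 1000) := by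
      calc mu a ^ 9 ≤ (1 / 1000) ^ 9 := pow_le_pow_left₀ h0.le hs 9
        _ ≤ 1 / 1000 := by norm_num
    calc mu a ^ 10 = mu a * mu a ^ 9 := by ring
      _ ≤ mu a * (1 / 1000) := mul_le_mul_of_nonneg_left this h0.le
  linarith

/-- `mu j ≤ mu s * mu i / 1000` for `s < i < j` -/
theorem mu_ratio2 {s i j : ℕ} (hs : s < i) (h : i < j) : mu j ≤ mu s * mu i / 1000 := by
  have h1 := mu_lt h
  have h0 := mu_pos i
  have hi := mu_small i
  have h3 := mu_ratio hs
  have h4 := mu_pos s
  have h2 : mu i ^ 10 ≤ mu i * mu i * (1 / 1000) := by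
    have : mu i ^ 8 ≤ (1 / 1000) := by
      calc mu i ^ 8 ≤ (1 / 1000) ^ 8 := pow_le_pow_left₀ h0.le hi 8
        _ ≤ 1 / 1000 := by norm_num
    calc mu i ^ 10 = mu i * mu i * mu i ^ 8 := by ring
      _ ≤ mu i * mu i * (1 / 1000) := mul_le_mul_of_nonneg_left this (by positivity)
  have h5 : mu i * mu i ≤ mu s * mu i := mul_le_mul_of_nonneg_right (by linarith) h0.le
  linarith

/-- comparison inside one column, `x` and `S` far apart -/
theorem far (S x : ℝ) (hS : 0 < S) (hx : 0 < x) (h : x ≤ S / 1000 ∨ S ≤ x / 1000) :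
    x ^ 2 * (2 * S - x) ≤ S ^ 3 / 100 - 99 / 100 * x ^ 3 ∨
      x ^ 2 * (2 * S - x) ≤ S ^ 3 / 100 - 1 / 2 * x ^ 3 := by
  right
  rcases h with h | h
  · have h1 : x ^ 2 ≤ S ^ 2 / 1000 := by nlinarith
    have h3 : x ^ 2 * S ≤ S ^ 3 / 1000 := by nlinarith
    have h4 : x ^ 3 ≤ S ^ 3 / 1000 := by nlinarith
    nlinarith
  · have h1 : x ^ 2 * S ≤ x ^ 3 / 1000 := by nlinarith [sq_nonneg x]
    have h2 : 0 < S ^ 3 := by positivity
    nlinarith

theorem main : S_selII := by
  intro i j s s' c c' hij hc1 hc2 hc1' hc2'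
  have hM := mu_pos i
  have hN := mu_pos j
  have hS := mu_pos s
  have hS' := mu_pos s'
  have hM1 := mu_small i
  have hN1 := mu_small j
  have hS1 := mu_small s
  have hS1' := mu_small s'
  have ht : 0 < tt i := by unfold tt; positivity
  have hc : 0 < c := by linarith
  have hc' : 0 < c' := by linarith
  obtain ⟨φ, hφ⟩ : ∃ φ : ℝ, φ = if s < i then 2 * c * mu s * mu i else 0 := ⟨_, rfl⟩
  obtain ⟨m, hm⟩ : ∃ m : ℝ, m = if s' < j then 2 * (φ * mu s' * mu j + c' * mu s' ^ 2 * mu j ^ 2)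
    else 0 := ⟨_, rfl⟩
  have hφ0 : 0 ≤ φ := by
    rw [hφ]; split_ifs
    · positivity
    · exact le_refl _
  have hφ1 : φ ≤ 3 * tt i * mu i / 1000 := by
    rw [hφ]; split_ifs
    · have h1 : c * mu s ≤ (11 / 10 * tt i) * (1 / 1000) :=
        mul_le_mul hc2 hS1 hS.le (by positivity)
      have := mul_le_mul_of_nonneg_right h1 hM.le
      have h3 : 0 < tt i * mu i := by positivity
      nlinarith
    · positivity
  have hm0 : 0 ≤ m := by
    rw [hm]; split_ifs
    · positivity
    · exact le_refl _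
  have hm1 : m ≤ tt i * mu j := by
    rw [hm]; split_ifs
    · have h1 : φ * mu s' ≤ (3 * tt i * mu i / 1000) * 1 :=
        mul_le_mul hφ1 (by linarith) hS'.le (by positivity)
      have h2 : c' * (mu s' ^ 2 * mu j) ≤ (11 / 10 * tt i) * (1 / 1000) := by
        apply mul_le_mul hc2' _ (by positivity) (by positivity)
        calc mu s' ^ 2 * mu j ≤ 1 ^ 2 * (1 / 1000) := by
              apply mul_le_mul _ hN1 hN.le (by positivity)
              exact pow_le_pow_left₀ hS'.le (by linarith) 2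
          _ = 1 / 1000 := by norm_num
      have h3 : tt i * mu i ≤ tt i := by nlinarith
      calc 2 * (φ * mu s' * mu j + c' * mu s' ^ 2 * mu j ^ 2)
          = 2 * (φ * mu s' + c' * (mu s' ^ 2 * mu j)) * mu j := by ring
        _ ≤ tt i * mu j := by
            apply mul_le_mul_of_nonneg_right _ hN.le
            linarith
    · positivity
  -- the bound needed if `s < i`
  have hm2 : s < i → m * mu s * mu i ^ 4 ≤ tt i / 100 * (mu s ^ 3 * mu i ^ 6) := by
    intro hs
    have hN2 := mu_ratio2 hs hij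
    have hSM : 0 < mu s * mu i := by positivity
    have key : m ≤ tt i / 100 * (mu s ^ 2 * mu i ^ 2) := by
      have e1 : m ≤ 2 * (φ * mu j + c' * mu j ^ 2) := by
        rw [hm]; split_ifs
        · have g1 : φ * mu s' * mu j ≤ φ * mu j := by
            have : φ * mu s' ≤ φ * 1 := mul_le_mul_of_nonneg_left (by linarith) hφ0
            nlinarith
          have g2 : c' * mu s' ^ 2 * mu j ^ 2 ≤ c' * mu j ^ 2 := by
            have : mu s' ^ 2 ≤ 1 := pow_le_one₀ hS'.le (by linarith)
            have h3 : c' * mu s' ^ 2 ≤ c' * 1 := mul_le_mul_of_nonneg_left this hc'.le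
            nlinarith [sq_nonneg (mu j)]
          linarith
        · positivity
      have e2 : φ * mu j ≤ 3 * tt i / 1000 * (mu s ^ 2 * mu i ^ 2) := by
        have g1 : φ = 2 * c * mu s * mu i := by rw [hφ, if_pos hs]
        have g2 : φ ≤ 3 * tt i * (mu s * mu i) := by
          rw [g1]
          have : c * (mu s * mu i) ≤ 11 / 10 * tt i * (mu s * mu i) :=
            mul_le_mul_of_nonneg_right hc2 hSM.le
          nlinarith [mul_pos ht hSM]
        calc φ * mu j ≤ (3 * tt i * (mu s * mu i)) * (mu s * mu i / 1000) :=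
              mul_le_mul g2 hN2 hN.le (by positivity)
          _ = _ := by ring
      have e3 : c' * mu j ^ 2 ≤ 2 * tt i / 1000000 * (mu s ^ 2 * mu i ^ 2) := by
        have g1 : mu j ^ 2 ≤ (mu s * mu i / 1000) ^ 2 := pow_le_pow_left₀ hN.le hN2 2
        calc c' * mu j ^ 2 ≤ (2 * tt i) * (mu s * mu i / 1000) ^ 2 :=
              mul_le_mul (by linarith) g1 (by positivity) (by positivity)
          _ = _ := by ring
      have h0 : 0 < tt i * (mu s ^ 2 * mu i ^ 2) := by positivity
      nlinarith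
    calc m * mu s * mu i ^ 4 ≤ (tt i / 100 * (mu s ^ 2 * mu i ^ 2)) * mu s * mu i ^ 4 := by
          apply mul_le_mul_of_nonneg_right _ (by positivity)
          exact mul_le_mul_of_nonneg_right key hS.le
      _ = _ := by ring
  refine ⟨φ, -m, hφ0, ?_, by linarith, by linarith, ?_, ?_, ?_, ?_⟩
  · have : 0 < tt i * mu i := by positivity
    linarith
  · -- `s < i`
    intro hs
    have g1 : φ = 2 * c * mu s * mu i := by rw [hφ, if_pos hs]
    have hm3 := hm2 hs
    have hA : 0 < mu s ^ 3 * mu i ^ 6 := by positivity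
    have vS : -c * Ad s i + TII φ (-m) s i = c * (mu s ^ 3 * mu i ^ 6) - m * mu s * mu i ^ 4 := by
      unfold TII Ac Ad Bc; rw [g1]; ring
    have hcA : 9 / 10 * tt i * (mu s ^ 3 * mu i ^ 6) ≤ c * (mu s ^ 3 * mu i ^ 6) :=
      mul_le_mul_of_nonneg_right hc1 hA.le
    have htA : 0 < tt i * (mu s ^ 3 * mu i ^ 6) := by positivity
    refine ⟨?_, ?_⟩
    · rw [vS]
      unfold Ad
      linarith
    · intro p hp hps
      have hx := mu_pos p
      have hfar : mu p ≤ mu s / 1000 ∨ mu s ≤ mu p / 1000 := by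
        rcases lt_or_gt_of_ne hps with h | h
        · exact Or.inr (mu_ratio h)
        · exact Or.inl (mu_ratio h)
      have hf : mu p ^ 2 * (2 * mu s - mu p) ≤ mu s ^ 3 / 100 - 1 / 2 * mu p ^ 3 := by
        rcases far (mu s) (mu p) hS hx hfar with h | h
        · have : 0 < mu p ^ 3 := by positivity
          linarith
        · exact h
      have vP : -c * Ad p i + TII φ (-m) p i =
          c * (mu p ^ 2 * (2 * mu s - mu p)) * mu i ^ 6 - m * mu p * mu i ^ 4 := by
        unfold TII Ac Ad Bc; rw [g1]; ring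
      have hmx : 0 ≤ m * mu p * mu i ^ 4 := by positivity
      have hM6 : 0 < mu i ^ 6 := by positivity
      have h1 : c * (mu p ^ 2 * (2 * mu s - mu p)) * mu i ^ 6 ≤
          c * (mu s ^ 3 / 100 - 1 / 2 * mu p ^ 3) * mu i ^ 6 :=
        mul_le_mul_of_nonneg_right (mul_le_mul_of_nonneg_left hf hc.le) hM6.le
      have hcP : 9 / 10 * tt i * (mu p ^ 3 * mu i ^ 6) ≤ c * (mu p ^ 3 * mu i ^ 6) :=
        mul_le_mul_of_nonneg_right hc1 (by positivity)
      have htP : 0 < tt i * (mu p ^ 3 * mu i ^ 6) := by positivity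
      rw [vS, vP]
      unfold Ad
      linarith
  · -- not `s < i`
    intro hs p hp
    have g1 : φ = 0 := by rw [hφ, if_neg hs]
    have hx := mu_pos p
    have hA : 0 < mu p ^ 3 * mu i ^ 6 := by positivity
    have h1 : 9 / 10 * tt i * (mu p ^ 3 * mu i ^ 6) ≤ c * (mu p ^ 3 * mu i ^ 6) :=
      mul_le_mul_of_nonneg_right hc1 hA.le
    have h2 : 0 ≤ m * (mu p * mu i ^ 4) := by positivity
    have h3 : 0 < tt i * (mu p ^ 3 * mu i ^ 6) := by positivity
    unfold TII Ac Ad Bc
    rw [g1]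
    linarith
  · -- `s' < j`
    intro hs
    have g1 : m = 2 * (φ * mu s' * mu j + c' * mu s' ^ 2 * mu j ^ 2) := by rw [hm, if_pos hs]
    have vS : c' * Ad s' j + TII φ (-m) s' j =
        -(φ * (mu s' ^ 2 * mu j ^ 5) + c' * (mu s' ^ 3 * mu j ^ 6)) := by
      unfold TII Ac Ad Bc; rw [g1]; ring
    have hA : 0 < mu s' ^ 3 * mu j ^ 6 := by positivity
    have hcA : 9 / 10 * tt i * (mu s' ^ 3 * mu j ^ 6) ≤ c' * (mu s' ^ 3 * mu j ^ 6) :=
      mul_le_mul_of_nonneg_right hc1' hA.le
    have htA : 0 < tt i * (mu s' ^ 3 * mu j ^ 6) := by positivity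
    have hφA : 0 ≤ φ * (mu s' ^ 2 * mu j ^ 5) := by positivity
    refine ⟨?_, ?_⟩
    · rw [vS]
      unfold Ad
      linarith
    · intro p hp hps
      have hx := mu_pos p
      have hcP : 9 / 10 * tt i * (mu p ^ 3 * mu j ^ 6) ≤ c' * (mu p ^ 3 * mu j ^ 6) :=
        mul_le_mul_of_nonneg_right hc1' (by positivity)
      have htP : 0 < tt i * (mu p ^ 3 * mu j ^ 6) := by positivity
      have hφP : 0 ≤ φ * (mu p ^ 2 * mu j ^ 5) := by positivity
      have vP : c' * Ad p j + TII φ (-m) p j = φ * (mu p ^ 2 * mu j ^ 5) +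
          c' * (mu p ^ 3 * mu j ^ 6) - m * (mu p * mu j ^ 4) := by
        unfold TII Ac Ad Bc; ring
      have hmP : m * (mu p * mu j ^ 4) = 2 * (φ * mu j ^ 5 * (mu s' * mu p) +
          c' * mu j ^ 6 * (mu s' ^ 2 * mu p)) := by rw [g1]; ring
      have hφN : 0 ≤ φ * mu j ^ 5 := by positivity
      have hcN : 0 ≤ c' * mu j ^ 6 := by positivity
      have key : m * (mu p * mu j ^ 4) ≤ 1 / 100 * (φ * (mu p ^ 2 * mu j ^ 5) +
          c' * (mu p ^ 3 * mu j ^ 6) + (φ * (mu s' ^ 2 * mu j ^ 5) +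
          c' * (mu s' ^ 3 * mu j ^ 6))) := by
        rw [hmP]
        have k1 : mu s' * mu p ≤ 1 / 1000 * (mu p ^ 2 + mu s' ^ 2) := by
          rcases lt_or_gt_of_ne hps with h | h
          · have := mu_ratio h; nlinarith
          · have := mu_ratio h; nlinarith
        have k2 : mu s' ^ 2 * mu p ≤ 1 / 1000 * (mu p ^ 3 + mu s' ^ 3) := by
          rcases lt_or_gt_of_ne hps with h | h
          · have h1 := mu_ratio h
            have h2 : mu s' ^ 2 ≤ mu p ^ 2 / 1000 := by nlinarith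
            have h3 : mu s' ^ 2 * mu p ≤ mu p ^ 2 / 1000 * mu p :=
              mul_le_mul_of_nonneg_right h2 hx.le
            have h4 : 0 < mu s' ^ 3 := by positivity
            nlinarith
          · have h1 := mu_ratio h
            have h3 : mu s' ^ 2 * mu p ≤ mu s' ^ 2 * (mu s' / 1000) :=
              mul_le_mul_of_nonneg_left h1 (by positivity)
            have h4 : 0 < mu p ^ 3 := by positivity
            nlinarith
        have k3 := mul_le_mul_of_nonneg_left k1 hφN
        have k4 := mul_le_mul_of_nonneg_left k2 hcN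
        nlinarith
      rw [vS, vP]
      unfold Ad
      linarith
  · intro hs p hp
    have g1 : m = 0 := by rw [hm, if_neg hs]
    have hx := mu_pos p
    have hA : 0 < mu p ^ 3 * mu j ^ 6 := by positivity
    have h1 : 9 / 10 * tt i * (mu p ^ 3 * mu j ^ 6) ≤ c' * (mu p ^ 3 * mu j ^ 6) :=
      mul_le_mul_of_nonneg_right hc1' hA.le
    have h2 : 0 ≤ φ * (mu p ^ 2 * mu j ^ 5) := by positivity
    have h3 : 0 < tt i * (mu p ^ 3 * mu j ^ 6) := by positivity
    unfold TII Ac Ad Bc
    rw [g1]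
    linarith

end Pool.Agent.W583.NC
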